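import Mathlib
import Pool.Agent.H443R3.Erg

set_option autoImplicit false
set_option linter.unusedSectionVars false

open MeasureTheory ProbabilityTheory Filter Topology
open scoped ENNReal Pointwise

/-!
# The invariant measure of an ergodic cellular automaton is mixing of all orders
-/

namespace Pool.Agent.W34.Mix

open Pool.Agent.H443R3

variable {d : ℕ} {S : Type}

/-! ### Cones -/

theorem mem_cone [MeasurableSpace S] (Φ : PCA d S) {r : ℝ} (hr : ∀ n ∈ Φ.nbhd, ‖n‖ ≤ r) (t : ℕ)
    {A : Finset (Site d)} {x : Site d} (hx : x ∈ Φ.cone t A) : ∃ a ∈ A, ‖x - a‖ ≤ t * r := by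
  induction t generalizing A with
  | zero =>
    refine ⟨x, hx, by simp⟩
  | succ t ih =>
    have hx' : x ∈ Φ.cone t (A + Φ.nbhd) := hx
    obtain ⟨b, hb, hbx⟩ := ih hx'
    obtain ⟨a, ha, n, hn, rfl⟩ := Finset.mem_add.1 hb
    refine ⟨a, ha, ?_⟩
    have e : x - a = (x - (a + n)) + n := by abel
    rw [e]
    refine (norm_add_le _ _).trans ?_
    push_cast
    linarith [hr n hn]

theorem exists_range (Φ : PCA d S) : ∃ r : ℝ, 0 ≤ r ∧ ∀ n ∈ Φ.nbhd, ‖n‖ ≤ r := by
  refine ⟨∑ n ∈ Φ.nbhd, ‖n‖, Finset.sum_nonneg fun _ _ => norm_nonneg _, fun n hn => ?_⟩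
  exact Finset.single_le_sum (f := fun n => ‖n‖) (fun _ _ => norm_nonneg _) hn

theorem cone_disjoint [MeasurableSpace S] (Φ : PCA d S) {r : ℝ} (hr0 : 0 ≤ r)
    (hr : ∀ n ∈ Φ.nbhd, ‖n‖ ≤ r) (t t' : ℕ) (ht : t' ≤ t)
    {A B : Finset (Site d)} (h : ∀ a ∈ A, ∀ b ∈ B, 2 * t * r < ‖a - b‖) :
    Disjoint (Φ.cone t' A) (Φ.cone t' B) := by
  rw [Finset.disjoint_left]
  intro x hA hB
  obtain ⟨a, ha, hax⟩ := mem_cone Φ hr t' hA
  obtain ⟨b, hb, hbx⟩ := mem_cone Φ hr t' hB
  have h1 := h a ha b hb
  have e : a - b = (x - b) - (x - a) := by abel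
  have h2 : ‖a - b‖ ≤ ‖x - b‖ + ‖x - a‖ := by rw [e]; exact norm_sub_le _ _
  have h3 : (t' : ℝ) * r ≤ t * r := by
    apply mul_le_mul_of_nonneg_right _ hr0
    exact_mod_cast ht
  linarith

variable [Finite S] [TopologicalSpace S] [DiscreteTopology S] [MeasurableSpace S]
  [MeasurableSingletonClass S]

theorem dependsOn_prod {ι : Type} (s : Finset ι) (F : ι → Config d S → ℝ≥0∞)
    (A : ι → Finset (Site d)) (hF : ∀ i ∈ s, DependsOn (F i) (A i)) :
    DependsOn (fun x => ∏ i ∈ s, F i x) ((s.biUnion A : Finset (Site d)) : Set (Site d)) := by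
  intro x y hxy
  apply Finset.prod_congr rfl
  intro i hi
  apply hF i hi
  intro j hj
  apply hxy
  exact Finset.mem_coe.2 (Finset.mem_biUnion.2 ⟨i, hi, hj⟩)

omit [TopologicalSpace S] [DiscreteTopology S] in
theorem op_iterate_one (Φ : PCA d S) (t : ℕ) : Φ.op^[t] (fun _ => (1 : ℝ≥0∞)) = fun _ => 1 := by
  induction t with
  | zero => rfl
  | succ t ih =>
    rw [Function.iterate_succ_apply]
    have : Φ.op (fun _ => (1 : ℝ≥0∞)) = fun _ => 1 := by
      funext y; simp [PCA.op]
    rw [this, ih]

theorem op_iterate_prod (Φ : PCA d S) {r : ℝ} (hr0 : 0 ≤ r) (hr : ∀ n ∈ Φ.nbhd, ‖n‖ ≤ r) (t : ℕ)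
    {ι : Type} [DecidableEq ι] (s : Finset ι) (F : ι → Config d S → ℝ≥0∞)
    (A : ι → Finset (Site d)) (hF : ∀ i ∈ s, DependsOn (F i) (A i))
    (hsep : ∀ i ∈ s, ∀ j ∈ s, i ≠ j → ∀ a ∈ A i, ∀ b ∈ A j, 2 * t * r < ‖a - b‖) :
    Φ.op^[t] (fun x => ∏ i ∈ s, F i x) = fun x => ∏ i ∈ s, Φ.op^[t] (F i) x := by
  induction s using Finset.induction_on with
  | empty => simpa using op_iterate_one Φ t
  | insert i s hi ih =>
    have e : (fun x => ∏ j ∈ insert i s, F j x) = fun x => F i x * ∏ j ∈ s, F j x := by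
      funext x; rw [Finset.prod_insert hi]
    rw [e, Φ.op_iterate_mul t (hF i (Finset.mem_insert_self i s))
      (dependsOn_prod s F A (fun j hj => hF j (Finset.mem_insert_of_mem hj))),
      ih (fun j hj => hF j (Finset.mem_insert_of_mem hj))
        (fun j hj k hk => hsep j (Finset.mem_insert_of_mem hj) k (Finset.mem_insert_of_mem hk))]
    · funext x
      rw [Finset.prod_insert hi]
    · intro t' ht'
      apply cone_disjoint Φ hr0 hr t t' ht'.le
      intro a ha b hb
      obtain ⟨j, hj, hbj⟩ := Finset.mem_biUnion.1 hb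
      exact hsep i (Finset.mem_insert_self i s) j (Finset.mem_insert_of_mem hj)
        (fun h => hi (h ▸ hj)) a ha b hbj

/-! ### Cylinders -/

theorem dependsOn_ind (A : Finset (Site d)) (u : A → S) : DependsOn (ind (d := d) A u) A :=
  dependsOn_cyl A u

theorem dependsOn_ind_shift (A : Finset (Site d)) (u : A → S) (k : Site d) :
    DependsOn (fun x => ind A u (shift k x))
      ((A.image (fun a => a + k) : Finset (Site d)) : Set (Site d)) := by
  intro x y hxy
  apply dependsOn_ind A u
  intro i hi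
  exact hxy _ (Finset.mem_coe.2 (Finset.mem_image_of_mem (fun a => a + k) (Finset.mem_coe.1 hi)))

theorem ind_le_one (A : Finset (Site d)) (u : A → S) (x : Config d S) : ind A u x ≤ 1 := by
  unfold ind Set.indicator
  split_ifs <;> simp

theorem continuous_ind (A : Finset (Site d)) (u : A → S) :
    Continuous (fun x : Config d S => (ind A u x).toReal) := by
  exact ENNReal.continuousOn_toReal.comp_continuous (continuous_of_dependsOn (dependsOn_ind A u))
    (fun x => ((ind_le_one A u x).trans_lt ENNReal.one_lt_top).ne)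

omit [TopologicalSpace S] [DiscreteTopology S] in
theorem measurable_shift (k : Site d) : Measurable (shift (S := S) k) := by
  unfold shift
  fun_prop

theorem continuous_shift (k : Site d) : Continuous (shift (S := S) k) := by
  unfold shift
  fun_prop

/-- The transition probabilities of a cylinder. -/
noncomputable def g (Φ : PCA d S) (A : Finset (Site d)) (u : A → S) (t : ℕ) (x : Config d S) : ℝ :=
  (Φ.op^[t] (ind A u) x).toReal

variable {Φ : PCA d S} {π : Measure (Config d S)}

omit [TopologicalSpace S] [DiscreteTopology S] in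
theorem op_ind_le_one (A : Finset (Site d)) (u : A → S) (t : ℕ) (x : Config d S) :
    Φ.op^[t] (ind A u) x ≤ 1 := by
  apply Φ.op_iterate_le_one
  intro y
  unfold ind Set.indicator
  split_ifs <;> simp

omit [TopologicalSpace S] [DiscreteTopology S] in
theorem g_nonneg (A : Finset (Site d)) (u : A → S) (t : ℕ) (x : Config d S) : 0 ≤ g Φ A u t x :=
  ENNReal.toReal_nonneg

omit [TopologicalSpace S] [DiscreteTopology S] in
theorem g_le_one (A : Finset (Site d)) (u : A → S) (t : ℕ) (x : Config d S) : g Φ A u t x ≤ 1 := by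
  have := ENNReal.toReal_mono ENNReal.one_ne_top (op_ind_le_one (Φ := Φ) A u t x)
  simpa [g] using this

theorem g_measurable (A : Finset (Site d)) (u : A → S) (t : ℕ) : Measurable (g Φ A u t) :=
  (PCA.measurable_of_dependsOn (Φ.op_iterate_dependsOn t (dependsOn_ind A u))).ennreal_toReal

theorem integral_evolve (Φ : PCA d S) {f : Config d S → ℝ≥0∞} {A : Finset (Site d)}
    (hf : DependsOn f A) (h1 : ∀ x, f x ≤ 1) (x : Config d S) (t : ℕ) :
    ∫ y, (f y).toReal ∂(Φ.evolve^[t] (Measure.dirac x)) = (Φ.op^[t] f x).toReal := by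
  rw [integral_toReal (PCA.measurable_of_dependsOn hf).aemeasurable
    (Eventually.of_forall fun x => (h1 x).trans_lt ENNReal.one_lt_top), Φ.iterate_dirac x t hf]

theorem integral_ind (ν : Measure (Config d S)) (A : Finset (Site d)) (u : A → S) :
    ∫ y, (ind A u y).toReal ∂ν = (ν (cyl A u)).toReal := by
  rw [integral_toReal (PCA.measurable_of_dependsOn (dependsOn_ind A u)).aemeasurable
    (Eventually.of_forall fun x => (ind_le_one A u x).trans_lt ENNReal.one_lt_top), lintegral_ind]

/-- The transition probabilities converge pointwise. -/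
theorem g_tendsto (h : ErgodicWith Φ π) (A : Finset (Site d)) (u : A → S) (x : Config d S) :
    Tendsto (fun t => g Φ A u t x) atTop (𝓝 (π (cyl A u)).toReal) := by
  have h1 := h.converges (Measure.dirac x) inferInstance _ (continuous_ind A u)
  rw [integral_ind] at h1
  refine h1.congr (fun t => ?_)
  exact integral_evolve Φ (dependsOn_ind A u) (ind_le_one A u) x t

/-- Shift invariance of the invariant measure. -/
theorem shift_cyl (h : ErgodicWith Φ π) (k : Site d) (A : Finset (Site d)) (u : A → S) :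
    π (shift k ⁻¹' cyl A u) = π (cyl A u) := by
  have := h.prob
  have hne : Nonempty (Config d S) := by
    by_contra hcon
    rw [not_nonempty_iff] at hcon
    have h1 : π Set.univ = 1 := measure_univ
    rw [Set.univ_eq_empty_iff.2 hcon, measure_empty] at h1
    exact absurd h1 (by simp)
  obtain ⟨x0⟩ := hne
  set c : Config d S := fun _ => x0 0 with hc
  have hsc : shift k c = c := rfl
  have hcont : Continuous (fun y : Config d S => (ind A u (shift k y)).toReal) :=
    (continuous_ind A u).comp (continuous_shift k)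
  have h1 := h.converges (Measure.dirac c) inferInstance _ hcont
  have h2 : ∫ y, (ind A u (shift k y)).toReal ∂π = (π (shift k ⁻¹' cyl A u)).toReal := by
    have e := integral_map (μ := π) (measurable_shift k).aemeasurable
      (continuous_ind (S := S) A u).measurable.aestronglyMeasurable
    rw [← e, integral_ind, Measure.map_apply (measurable_shift k) (measurableSet_cyl A u)]
  rw [h2] at h1
  have h3 : Tendsto (fun t => g Φ A u t c) atTop (𝓝 (π (shift k ⁻¹' cyl A u)).toReal) := by
    refine h1.congr (fun t => ?_)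
    rw [integral_evolve Φ (dependsOn_ind_shift A u k) (fun x => ind_le_one A u _) c t,
      Φ.op_iterate_shift t (dependsOn_ind A u) k]
    show (Φ.op^[t] (ind A u) (shift k c)).toReal = (Φ.op^[t] (ind A u) c).toReal
    rw [hsc]
  have h4 := tendsto_nhds_unique h3 (g_tendsto h A u c)
  exact (ENNReal.toReal_eq_toReal_iff' (measure_ne_top _ _) (measure_ne_top _ _)).1 h4

theorem shift_invariant (h : ErgodicWith Φ π) (k : Site d) : π.map (shift k) = π := by
  have := h.prob
  have : IsProbabilityMeasure (π.map (shift k)) :=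
    Measure.isProbabilityMeasure_map (measurable_shift k).aemeasurable
  apply measure_ext_cyl
  intro A u
  rw [Measure.map_apply (measurable_shift k) (measurableSet_cyl A u)]
  exact shift_cyl h k A u

/-- Convergence in `L¹`. -/
theorem L1 (h : ErgodicWith Φ π) (A : Finset (Site d)) (u : A → S) :
    Tendsto (fun t => ∫ x, |g Φ A u t x - (π (cyl A u)).toReal| ∂π) atTop (𝓝 0) := by
  have := h.prob
  have h1 : Tendsto (fun t => ∫ x, |g Φ A u t x - (π (cyl A u)).toReal| ∂π) atTop
      (𝓝 (∫ _, (0 : ℝ) ∂π)) := by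
    apply tendsto_integral_of_dominated_convergence (fun _ => (1 : ℝ))
    · intro t
      exact (((g_measurable A u t).sub_const _).abs).aestronglyMeasurable
    · exact integrable_const _
    · intro t
      filter_upwards with x
      have h1 := g_nonneg (Φ := Φ) A u t x
      have h2 := g_le_one (Φ := Φ) A u t x
      have h3 : 0 ≤ (π (cyl A u)).toReal := ENNReal.toReal_nonneg
      have h4 : (π (cyl A u)).toReal ≤ 1 := by
        have := ENNReal.toReal_mono ENNReal.one_ne_top (prob_le_one (μ := π) (s := cyl A u))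
        simpa using this
      rw [Real.norm_eq_abs, abs_abs, abs_le]
      constructor <;> linarith
    · filter_upwards with x
      have := ((g_tendsto h A u x).sub_const (π (cyl A u)).toReal).abs
      simpa using this
  simpa using h1

/-- An elementary inequality. -/
theorem abs_prod_sub_prod_le {ι : Type} (s : Finset ι) (a b : ι → ℝ)
    (ha : ∀ i, 0 ≤ a i ∧ a i ≤ 1) (hb : ∀ i, 0 ≤ b i ∧ b i ≤ 1) :
    |∏ i ∈ s, a i - ∏ i ∈ s, b i| ≤ ∑ i ∈ s, |a i - b i| := by
  classical
  induction s using Finset.induction_on with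
  | empty => simp
  | insert i s hi ih =>
    rw [Finset.prod_insert hi, Finset.prod_insert hi, Finset.sum_insert hi]
    have e : a i * ∏ j ∈ s, a j - b i * ∏ j ∈ s, b j =
        (a i - b i) * ∏ j ∈ s, a j + b i * (∏ j ∈ s, a j - ∏ j ∈ s, b j) := by ring
    rw [e]
    refine (abs_add_le _ _).trans ?_
    rw [abs_mul, abs_mul]
    have h1 : |∏ j ∈ s, a j| ≤ 1 := by
      rw [abs_of_nonneg (Finset.prod_nonneg fun j _ => (ha j).1)]
      exact Finset.prod_le_one (fun j _ => (ha j).1) (fun j _ => (ha j).2)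
    have h2 : |b i| ≤ 1 := by
      rw [abs_of_nonneg (hb i).1]; exact (hb i).2
    have h3 := abs_nonneg (a i - b i)
    have h4 := abs_nonneg (∏ j ∈ s, a j - ∏ j ∈ s, b j)
    nlinarith

/-- The invariant law of the intersection of shifted cylinders. -/
theorem measure_inter (h : ErgodicWith Φ π) {r : ℝ} (hr0 : 0 ≤ r) (hr : ∀ n ∈ Φ.nbhd, ‖n‖ ≤ r)
    (t : ℕ) {m : ℕ} (A : Fin m → Finset (Site d)) (u : ∀ i, A i → S) (k : Fin m → Site d)
    (hsep : ∀ i j, i ≠ j → ∀ a ∈ A i, ∀ b ∈ A j, 2 * t * r < ‖(a + k i) - (b + k j)‖) :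
    (π (⋂ i, shift (k i) ⁻¹' cyl (A i) (u i))).toReal =
      ∫ x, ∏ i, g Φ (A i) (u i) t (shift (k i) x) ∂π := by
  have := h.prob
  -- the product of the indicators
  have hdep : ∀ i ∈ (Finset.univ : Finset (Fin m)),
      DependsOn (fun x : Config d S => ind (A i) (u i) (shift (k i) x))
        (((A i).image (fun a => a + k i) : Finset (Site d)) : Set (Site d)) :=
    fun i _ => dependsOn_ind_shift (A i) (u i) (k i)
  have hprod := dependsOn_prod (S := S) Finset.univ
    (fun i x => ind (A i) (u i) (shift (k i) x)) _ hdep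
  have h1 : (fun x : Config d S => ∏ i, ind (A i) (u i) (shift (k i) x)) =
      (⋂ i, shift (k i) ⁻¹' cyl (A i) (u i)).indicator (fun _ => 1) := by
    funext x
    by_cases hx : x ∈ ⋂ i, shift (k i) ⁻¹' cyl (A i) (u i)
    · rw [Set.indicator_of_mem hx]
      apply Finset.prod_eq_one
      intro i _
      unfold ind
      rw [Set.indicator_of_mem]
      exact Set.mem_iInter.1 hx i
    · rw [Set.indicator_of_notMem hx]
      have : ∃ i, shift (k i) x ∉ cyl (A i) (u i) := by
        by_contra hcon
        push Not at hcon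
        exact hx (Set.mem_iInter.2 hcon)
      obtain ⟨i, hi⟩ := this
      apply Finset.prod_eq_zero (Finset.mem_univ i)
      unfold ind
      rw [Set.indicator_of_notMem hi]
  have hmeas : MeasurableSet (⋂ i, shift (k i) ⁻¹' cyl (A i) (u i)) :=
    MeasurableSet.iInter fun i => (measurable_shift (k i)) (measurableSet_cyl (A i) (u i))
  have h2 : π (⋂ i, shift (k i) ⁻¹' cyl (A i) (u i)) =
      ∫⁻ x, ∏ i, ind (A i) (u i) (shift (k i) x) ∂π := by
    rw [h1, lintegral_indicator hmeas, lintegral_const, one_mul,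
      Measure.restrict_apply MeasurableSet.univ, Set.univ_inter]
  have hinv : ∀ t : ℕ, Φ.evolve^[t] π = π := by
    intro t
    induction t with
    | zero => rfl
    | succ t ih => rw [Function.iterate_succ_apply', ih, h.invariant]
  have h3 : ∫⁻ x, ∏ i, ind (A i) (u i) (shift (k i) x) ∂π =
      ∫⁻ x, ∏ i, Φ.op^[t] (ind (A i) (u i)) (shift (k i) x) ∂π := by
    conv_lhs => rw [← hinv t]
    rw [Φ.lintegral_iterate π t hprod,
      op_iterate_prod Φ hr0 hr t Finset.univ (fun i x => ind (A i) (u i) (shift (k i) x)) _ hdep]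
    · apply lintegral_congr
      intro x
      apply Finset.prod_congr rfl
      intro i _
      exact congrFun (Φ.op_iterate_shift t (dependsOn_ind (A i) (u i)) (k i)) x
    · intro i _ j _ hij a ha b hb
      obtain ⟨a', ha', rfl⟩ := Finset.mem_image.1 ha
      obtain ⟨b', hb', rfl⟩ := Finset.mem_image.1 hb
      exact hsep i j hij a' ha' b' hb'
  rw [h2, h3, ← integral_toReal]
  · apply integral_congr_ae
    filter_upwards with x
    rw [ENNReal.toReal_prod]
    rfl
  · apply Measurable.aemeasurable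
    apply Finset.measurable_prod
    intro i _
    exact (PCA.measurable_of_dependsOn (Φ.op_iterate_dependsOn t
      (dependsOn_ind (A i) (u i)))).comp (measurable_shift (k i))
  · filter_upwards with x
    refine lt_of_le_of_lt ?_ ENNReal.one_lt_top
    exact Finset.prod_le_one' (fun i _ => op_ind_le_one (A i) (u i) t _)

/-- Mixing of all orders. -/
theorem mixing (h : ErgodicWith Φ π) {m : ℕ} (A : Fin m → Finset (Site d)) (u : ∀ i, A i → S)
    (ε : ℝ) (hε : 0 < ε) : ∃ R : ℝ, ∀ k : Fin m → Site d, (∀ i j, i ≠ j → R ≤ ‖k i - k j‖) →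
      |(π (⋂ i, shift (k i) ⁻¹' cyl (A i) (u i))).toReal - ∏ i, (π (cyl (A i) (u i))).toReal| < ε := by
  have := h.prob
  obtain ⟨r, hr0, hr⟩ := exists_range Φ
  -- the time
  have hsum : Tendsto (fun t => ∑ i, ∫ x, |g Φ (A i) (u i) t x - (π (cyl (A i) (u i))).toReal| ∂π)
      atTop (𝓝 0) := by
    have := tendsto_finsetSum (Finset.univ : Finset (Fin m)) (fun i _ => L1 h (A i) (u i))
    simpa using this
  obtain ⟨t, ht⟩ := (hsum.eventually_lt_const hε).exists
  -- the distance
  set M : ℝ := ∑ i, ∑ a ∈ A i, ‖a‖ with hM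
  have hMa : ∀ i, ∀ a ∈ A i, ‖a‖ ≤ M := by
    intro i a ha
    refine le_trans ?_ (Finset.single_le_sum (f := fun i => ∑ a ∈ A i, ‖a‖)
      (fun _ _ => Finset.sum_nonneg fun _ _ => norm_nonneg _) (Finset.mem_univ i))
    exact Finset.single_le_sum (f := fun a => ‖a‖) (fun _ _ => norm_nonneg _) ha
  refine ⟨2 * t * r + 2 * M + 1, fun k hk => ?_⟩
  have hsep : ∀ i j, i ≠ j → ∀ a ∈ A i, ∀ b ∈ A j, 2 * t * r < ‖(a + k i) - (b + k j)‖ := by
    intro i j hij a ha b hb
    have h1 := hk i j hij
    have e : k i - k j = ((a + k i) - (b + k j)) - (a - b) := by abel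
    have h2 : ‖k i - k j‖ ≤ ‖(a + k i) - (b + k j)‖ + ‖a - b‖ := by
      rw [e]; exact norm_sub_le _ _
    have h3 := norm_sub_le a b
    have h4 := hMa i a ha
    have h5 := hMa j b hb
    linarith
  rw [measure_inter h hr0 hr t A u k hsep]
  have hp : ∀ i, 0 ≤ (π (cyl (A i) (u i))).toReal ∧ (π (cyl (A i) (u i))).toReal ≤ 1 := by
    intro i
    refine ⟨ENNReal.toReal_nonneg, ?_⟩
    have := ENNReal.toReal_mono ENNReal.one_ne_top (prob_le_one (μ := π) (s := cyl (A i) (u i)))
    simpa using this
  have hgm : ∀ i, Measurable (fun x : Config d S => g Φ (A i) (u i) t (shift (k i) x)) :=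
    fun i => (g_measurable (A i) (u i) t).comp (measurable_shift (k i))
  have hint1 : Integrable (fun x => ∏ i, g Φ (A i) (u i) t (shift (k i) x)) π := by
    apply Integrable.of_bound (C := 1)
    · exact (Finset.measurable_prod _ fun i _ => hgm i).aestronglyMeasurable
    · filter_upwards with x
      rw [Real.norm_eq_abs, abs_of_nonneg (Finset.prod_nonneg fun i _ => g_nonneg _ _ _ _)]
      exact Finset.prod_le_one (fun i _ => g_nonneg _ _ _ _) (fun i _ => g_le_one _ _ _ _)
  have hint2 : ∀ i, Integrable (fun x => |g Φ (A i) (u i) t (shift (k i) x) -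
      (π (cyl (A i) (u i))).toReal|) π := by
    intro i
    apply Integrable.of_bound (C := 1)
    · exact (((hgm i).sub_const _).abs).aestronglyMeasurable
    · filter_upwards with x
      have h1 := g_nonneg (Φ := Φ) (A i) (u i) t (shift (k i) x)
      have h2 := g_le_one (Φ := Φ) (A i) (u i) t (shift (k i) x)
      have h3 := hp i
      rw [Real.norm_eq_abs, abs_abs, abs_le]
      constructor <;> linarith [h3.1, h3.2]
  have e1 : ∫ x, ∏ i, g Φ (A i) (u i) t (shift (k i) x) ∂π - ∏ i, (π (cyl (A i) (u i))).toReal =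
      ∫ x, (∏ i, g Φ (A i) (u i) t (shift (k i) x) - ∏ i, (π (cyl (A i) (u i))).toReal) ∂π := by
    rw [integral_sub hint1 (integrable_const _), integral_const]
    simp
  rw [e1]
  calc |∫ x, (∏ i, g Φ (A i) (u i) t (shift (k i) x) - ∏ i, (π (cyl (A i) (u i))).toReal) ∂π|
      ≤ ∫ x, |∏ i, g Φ (A i) (u i) t (shift (k i) x) - ∏ i, (π (cyl (A i) (u i))).toReal| ∂π :=
        abs_integral_le_integral_abs
    _ ≤ ∫ x, ∑ i, |g Φ (A i) (u i) t (shift (k i) x) - (π (cyl (A i) (u i))).toReal| ∂π := by
        apply integral_mono_of_nonneg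
        · filter_upwards with x
          exact abs_nonneg _
        · exact integrable_finsetSum _ fun i _ => hint2 i
        · filter_upwards with x
          exact abs_prod_sub_prod_le _ _ _ (fun i => ⟨g_nonneg _ _ _ _, g_le_one _ _ _ _⟩) hp
    _ = ∑ i, ∫ x, |g Φ (A i) (u i) t (shift (k i) x) - (π (cyl (A i) (u i))).toReal| ∂π :=
        integral_finsetSum _ fun i _ => hint2 i
    _ = ∑ i, ∫ x, |g Φ (A i) (u i) t x - (π (cyl (A i) (u i))).toReal| ∂π := by
        apply Finset.sum_congr rfl
        intro i _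
        have e := integral_map (μ := π) (measurable_shift (k i)).aemeasurable
          (f := fun x => |g Φ (A i) (u i) t x - (π (cyl (A i) (u i))).toReal|)
          ((((g_measurable (A i) (u i) t).sub_const _).abs).aestronglyMeasurable)
        rw [shift_invariant h (k i)] at e
        exact e.symm
    _ < ε := ht

/-- Spatial mixing. -/
theorem mixing_two (h : ErgodicWith Φ π) (A B : Finset (Site d)) (u : A → S) (v : B → S) :
    Tendsto (fun k : Site d => π (cyl A u ∩ shift k ⁻¹' cyl B v)) cofinite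
      (𝓝 (π (cyl A u) * π (cyl B v))) := by
  have := h.prob
  rw [← ENNReal.tendsto_toReal_iff (fun k => measure_ne_top _ _)
    (ENNReal.mul_ne_top (measure_ne_top _ _) (measure_ne_top _ _)), Metric.tendsto_nhds]
  intro ε hε
  set AA : Fin 2 → Finset (Site d) := ![A, B] with hAA
  let uu : ∀ i, AA i → S := Fin.cons u (Fin.cons v (fun i => i.elim0))
  obtain ⟨R, hR⟩ := mixing h AA uu ε hε
  have hcof : ∀ᶠ k : Site d in cofinite, R ≤ ‖k‖ := by
    have h1 : Tendsto (fun k : Site d => ‖k‖) cofinite atTop := by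
      rw [← cocompact_eq_cofinite, ← Metric.cobounded_eq_cocompact]
      exact tendsto_norm_cobounded_atTop
    exact h1.eventually_ge_atTop R
  filter_upwards [hcof] with k hk
  have h1 := hR ![0, k] (by
    intro i j hij
    fin_cases i <;> fin_cases j <;> simp_all)
  have e1 : (⋂ i, shift ((![0, k] : Fin 2 → Site d) i) ⁻¹' cyl (AA i) (uu i)) =
      cyl A u ∩ shift k ⁻¹' cyl B v := by
    ext x
    rw [Set.mem_iInter, Fin.forall_fin_two]
    have e0 : shift (0 : Site d) x = x := by
      funext i
      simp [shift]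
    constructor
    · rintro ⟨h0, h1⟩
      have h0' : shift (0 : Site d) x ∈ cyl A u := h0
      rw [e0] at h0'
      exact ⟨h0', h1⟩
    · rintro ⟨h0, h1⟩
      refine ⟨?_, h1⟩
      show shift (0 : Site d) x ∈ cyl A u
      rw [e0]
      exact h0
  rw [e1, Fin.prod_univ_two] at h1
  rw [Real.dist_eq, ENNReal.toReal_mul]
  exact h1

end Pool.Agent.W34.Mix
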